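import Pool.Agent.Y476.RM.Stm

set_option autoImplicit false

/-!
# HM ATOM: irreducible piece of the common factor of two random variables
-/

open MeasureTheory Filter Topology
open scoped ENNReal

namespace Pool.Agent.Y448.HM

open Pool.Agent.Y476.RM

/-- greedy choice of a minimal element -/
theorem greedy {α : Type} (F : Set (Set α)) (p : Set α → ℝ) (hp0 : ∀ B, 0 ≤ p B)
    (hmono : ∀ B B', B ⊆ B' → p B ≤ p B') (hne : F.Nonempty)
    (hint : ∀ s : ℕ → Set α, Antitone s → (∀ n, s n ∈ F) → (⋂ n, s n) ∈ F) :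
    ∃ B0 ∈ F, ∀ B ∈ F, B ⊆ B0 → p B0 ≤ p B := by
  have step : ∀ (B : {B // B ∈ F}) (n : ℕ), ∃ B' : {B // B ∈ F}, B'.1 ⊆ B.1 ∧
      ∀ B'' ∈ F, B'' ⊆ B.1 → p B'.1 ≤ p B'' + (1 / 2 : ℝ) ^ n := by
    intro B n
    set S : Set ℝ := p '' {B'' | B'' ∈ F ∧ B'' ⊆ B.1} with hS
    have hSne : S.Nonempty := ⟨p B.1, B.1, ⟨B.2, subset_rfl⟩, rfl⟩
    have hSbd : BddBelow S := ⟨0, by rintro _ ⟨B'', _, rfl⟩; exact hp0 _⟩
    have hpos : (0 : ℝ) < (1 / 2 : ℝ) ^ n := by positivity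
    obtain ⟨_, ⟨B', ⟨hB'F, hB'B⟩, rfl⟩, hlt⟩ :=
      exists_lt_of_csInf_lt hSne (show sInf S < sInf S + (1 / 2 : ℝ) ^ n by linarith)
    refine ⟨⟨B', hB'F⟩, hB'B, fun B'' hB'' hsub => ?_⟩
    have := csInf_le hSbd ⟨B'', ⟨hB'', hsub⟩, rfl⟩
    show p B' ≤ _
    linarith
  choose f hf1 hf2 using step
  obtain ⟨U, hU⟩ := hne
  let s : ℕ → {B // B ∈ F} := fun n => Nat.rec ⟨U, hU⟩ (fun n B => f B n) n
  have hs : ∀ n, s (n + 1) = f (s n) n := fun n => rfl
  have hanti : Antitone fun n => (s n).1 := by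
    apply antitone_nat_of_succ_le
    intro n
    show (s (n + 1)).1 ⊆ (s n).1
    rw [hs]
    exact hf1 _ _
  refine ⟨⋂ n, (s n).1, hint _ hanti fun n => (s n).2, fun B hB hsub => ?_⟩
  have hkey : ∀ n, p (⋂ n, (s n).1) ≤ p B + (1 / 2 : ℝ) ^ n := by
    intro n
    have h1 : p (⋂ n, (s n).1) ≤ p (s (n + 1)).1 :=
      hmono _ _ (Set.iInter_subset (fun n => (s n).1) (n + 1))
    have h2 : p (s (n + 1)).1 ≤ p B + (1 / 2 : ℝ) ^ n := by
      rw [hs]
      exact hf2 _ _ B hB (hsub.trans (Set.iInter_subset (fun n => (s n).1) n))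
    linarith
  have hlim : Tendsto (fun n : ℕ => p B + (1 / 2 : ℝ) ^ n) atTop (𝓝 (p B + 0)) :=
    tendsto_const_nhds.add (tendsto_pow_atTop_nhds_zero_of_lt_one (by norm_num) (by norm_num))
  rw [add_zero] at hlim
  exact ge_of_tendsto' hlim hkey

/-- `S_ATOM` -/
theorem t : S_ATOM := by
  intro Ω α β _ _ _ P _ Y Z hY hZ hP hac
  set P' : Measure (α × β) := P.map (fun ω => (Y ω, Z ω)) with hP'
  set Q : Measure (α × β) := (P.map Y).prod (P.map Z) with hQ
  have hYZ : Measurable fun ω => (Y ω, Z ω) := hY.prodMk hZ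
  have : IsFiniteMeasure P' := by rw [hP']; infer_instance
  have : IsFiniteMeasure (P.map Y) := inferInstance
  have : IsFiniteMeasure (P.map Z) := inferInstance
  have : IsFiniteMeasure Q := by rw [hQ]; infer_instance
  set k : α × β → ℝ≥0∞ := P'.rnDeriv Q with hk
  have hkm : Measurable k := Measure.measurable_rnDeriv _ _
  -- choice of `M`
  obtain ⟨M, hM⟩ : ∃ M : ℕ, P' {x | k x ≤ M} ≠ 0 := by
    by_contra hcon
    push Not at hcon
    have h1 : P' (⋃ M : ℕ, {x | k x ≤ M}) = 0 := measure_iUnion_null hcon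
    have h2 : ∀ᵐ x ∂P', k x < ∞ := hac.ae_le (Measure.rnDeriv_lt_top P' Q)
    have h3 : ∀ᵐ x ∂P', x ∈ ⋃ M : ℕ, {x | k x ≤ M} := by
      filter_upwards [h2] with x hx
      rw [Set.mem_iUnion]
      obtain ⟨n, hn⟩ := ENNReal.exists_nat_gt hx.ne
      exact ⟨n, hn.le⟩
    have h4 : P' Set.univ = 0 := by
      have h5 : P' (⋃ M : ℕ, {x | k x ≤ M})ᶜ = 0 := h3
      have h6 := measure_union_le (μ := P') (⋃ M : ℕ, {x | k x ≤ M}) (⋃ M : ℕ, {x | k x ≤ M})ᶜ
      rw [Set.union_compl_self, h1, h5, add_zero] at h6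
      exact le_antisymm h6 bot_le
    rw [hP', Measure.map_apply hYZ MeasurableSet.univ, Set.preimage_univ] at h4
    exact hP (Measure.measure_univ_eq_zero.1 h4)
  set G : Set Ω := (fun ω => (Y ω, Z ω)) ⁻¹' {x | k x ≤ M} with hG
  have hKm : MeasurableSet {x | k x ≤ M} := measurableSet_le hkm measurable_const
  have hGm : MeasurableSet G := hYZ hKm
  let p : Set α → ℝ := fun B => (P (Y ⁻¹' B)).toReal
  let q : Set α → ℝ := fun B => (P (Y ⁻¹' B ∩ G)).toReal
  have hpU : 0 < p Set.univ := by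
    apply ENNReal.toReal_pos
    · rw [Set.preimage_univ]
      exact fun h => hP (Measure.measure_univ_eq_zero.1 h)
    · exact measure_ne_top _ _
  have hqU : 0 < q Set.univ := by
    apply ENNReal.toReal_pos
    · rw [Set.preimage_univ, Set.univ_inter]
      rw [hP', Measure.map_apply hYZ hKm] at hM
      exact hM
    · exact measure_ne_top _ _
  have hp0 : ∀ B, 0 ≤ p B := fun B => ENNReal.toReal_nonneg
  have hpmono : ∀ B B', B ⊆ B' → p B ≤ p B' := fun B B' h =>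
    ENNReal.toReal_mono (measure_ne_top _ _) (measure_mono (Set.preimage_mono h))
  -- the bound
  have hbound : ∀ (B : Set α) (C : Set β), MeasurableSet B → MeasurableSet C →
      (∀ᵐ ω ∂P, Y ω ∈ B ↔ Z ω ∈ C) → q B ≤ M * (p B * p B) := by
    intro B C hB hC hBC
    have h1 : P (Y ⁻¹' B ∩ G) ≤ P' ((B ×ˢ C) ∩ {x | k x ≤ M}) := by
      rw [hP', Measure.map_apply hYZ ((hB.prod hC).inter hKm)]
      apply measure_mono_ae
      filter_upwards [hBC] with ω hω hmem
      exact ⟨⟨hmem.1, hω.1 hmem.1⟩, hmem.2⟩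
    have h2 : P' ((B ×ˢ C) ∩ {x | k x ≤ M}) ≤ M * ((P.map Y) B * (P.map Z) C) := by
      rw [← Measure.setLIntegral_rnDeriv hac]
      calc ∫⁻ x in (B ×ˢ C) ∩ {x | k x ≤ M}, P'.rnDeriv Q x ∂Q
          ≤ ∫⁻ _ in (B ×ˢ C) ∩ {x | k x ≤ M}, (M : ℝ≥0∞) ∂Q :=
            setLIntegral_mono' ((hB.prod hC).inter hKm) fun x hx => hx.2
        _ = M * Q ((B ×ˢ C) ∩ {x | k x ≤ M}) := by rw [setLIntegral_const]
        _ ≤ M * Q (B ×ˢ C) := by gcongr; exact Set.inter_subset_left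
        _ = M * ((P.map Y) B * (P.map Z) C) := by rw [hQ, Measure.prod_prod]
    have h3 : (P.map Y) B = P (Y ⁻¹' B) := Measure.map_apply hY hB
    have h4 : (P.map Z) C = P (Y ⁻¹' B) := by
      rw [Measure.map_apply hZ hC]
      apply measure_congr
      filter_upwards [hBC] with ω hω
      exact propext hω.symm
    rw [h3, h4] at h2
    have h5 := ENNReal.toReal_mono (by finiteness) (h1.trans h2)
    rw [ENNReal.toReal_mul, ENNReal.toReal_mul, ENNReal.toReal_natCast] at h5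
    exact h5
  -- the class `F`
  let F : Set (Set α) := {B | MeasurableSet B ∧ (∃ C : Set β, MeasurableSet C ∧
    ∀ᵐ ω ∂P, Y ω ∈ B ↔ Z ω ∈ C) ∧ 0 < p B ∧ q Set.univ * p B ≤ q B * p Set.univ}
  have hMpos : (0 : ℝ) < M := by
    have h1 := hbound Set.univ Set.univ MeasurableSet.univ MeasurableSet.univ
      (Eventually.of_forall fun ω => by simp)
    by_contra hcon
    have h2 : (M : ℝ) = 0 := le_antisymm (not_lt.1 hcon) (Nat.cast_nonneg _)
    rw [h2, zero_mul] at h1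
    linarith
  have hlow : ∀ B ∈ F, q Set.univ / (M * p Set.univ) ≤ p B := by
    rintro B ⟨hB, ⟨C, hC, hBC⟩, hpB, hqB⟩
    have h1 := hbound B C hB hC hBC
    rw [div_le_iff₀ (by positivity)]
    have h2 : q Set.univ * p B ≤ M * (p B * p B) * p Set.univ :=
      hqB.trans (mul_le_mul_of_nonneg_right h1 hpU.le)
    have h3 : q Set.univ * p B ≤ (p B * (M * p Set.univ)) * p B := by linarith
    exact le_of_mul_le_mul_right h3 hpB
  have hc0 : 0 < q Set.univ / (M * p Set.univ) := by positivity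
  have hFU : Set.univ ∈ F :=
    ⟨MeasurableSet.univ, ⟨Set.univ, MeasurableSet.univ, Eventually.of_forall fun ω => by simp⟩,
      hpU, le_rfl⟩
  have hint : ∀ s : ℕ → Set α, Antitone s → (∀ n, s n ∈ F) → (⋂ n, s n) ∈ F := by
    intro s hs hsF
    have hsm : ∀ n, MeasurableSet (s n) := fun n => (hsF n).1
    choose C hC hsC using fun n => (hsF n).2.1
    have hpt : Tendsto (fun n => p (s n)) atTop (𝓝 (p (⋂ n, s n))) := by
      have h1 := tendsto_measure_iInter_atTop (μ := P) (s := fun n => Y ⁻¹' s n)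
        (fun n => (hY (hsm n)).nullMeasurableSet) (fun m n h => Set.preimage_mono (hs h))
        ⟨0, measure_ne_top _ _⟩
      rw [← Set.preimage_iInter] at h1
      exact (ENNReal.tendsto_toReal (measure_ne_top _ _)).comp h1
    have hqt : Tendsto (fun n => q (s n)) atTop (𝓝 (q (⋂ n, s n))) := by
      have h1 := tendsto_measure_iInter_atTop (μ := P) (s := fun n => Y ⁻¹' s n ∩ G)
        (fun n => ((hY (hsm n)).inter hGm).nullMeasurableSet)
        (fun m n h => Set.inter_subset_inter_left _ (Set.preimage_mono (hs h)))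
        ⟨0, measure_ne_top _ _⟩
      rw [← Set.iInter_inter, ← Set.preimage_iInter] at h1
      exact (ENNReal.tendsto_toReal (measure_ne_top _ _)).comp h1
    refine ⟨MeasurableSet.iInter hsm, ⟨⋂ n, C n, MeasurableSet.iInter hC, ?_⟩, ?_, ?_⟩
    · filter_upwards [ae_all_iff.2 hsC] with ω hω
      rw [Set.mem_iInter, Set.mem_iInter]
      exact forall_congr' hω
    · exact lt_of_lt_of_le hc0 (ge_of_tendsto' hpt fun n => hlow _ (hsF n))
    · exact le_of_tendsto_of_tendsto' (hpt.const_mul _) (hqt.mul_const _)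
        fun n => (hsF n).2.2.2
  obtain ⟨B0, hB0F, hmin⟩ := greedy F p hp0 hpmono ⟨_, hFU⟩ hint
  obtain ⟨hB0, ⟨C0, hC0, hBC0⟩, hpB0, hqB0⟩ := hB0F
  refine ⟨B0, C0, hB0, hC0, hBC0, ?_, ?_⟩
  · exact (ENNReal.toReal_pos_iff.1 hpB0).1
  · intro B C hB hC hBC
    by_contra hcon
    push Not at hcon
    obtain ⟨hc1, hc2⟩ := hcon
    have hp1 : 0 < p (B0 ∩ B) := ENNReal.toReal_pos hc1 (measure_ne_top _ _)
    have hp2 : 0 < p (B0 \ B) := ENNReal.toReal_pos hc2 (measure_ne_top _ _)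
    have hpadd : p B0 = p (B0 ∩ B) + p (B0 \ B) := by
      show (P (Y ⁻¹' B0)).toReal = (P (Y ⁻¹' (B0 ∩ B))).toReal + (P (Y ⁻¹' (B0 \ B))).toReal
      rw [← ENNReal.toReal_add (measure_ne_top _ _) (measure_ne_top _ _), Set.preimage_inter,
        Set.preimage_sdiff, measure_inter_add_sdiff _ (hY hB)]
    have hqadd : q B0 = q (B0 ∩ B) + q (B0 \ B) := by
      show (P (Y ⁻¹' B0 ∩ G)).toReal = (P (Y ⁻¹' (B0 ∩ B) ∩ G)).toReal +
        (P (Y ⁻¹' (B0 \ B) ∩ G)).toReal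
      rw [← ENNReal.toReal_add (measure_ne_top _ _) (measure_ne_top _ _), Set.preimage_inter,
        Set.preimage_sdiff]
      have e1 : Y ⁻¹' B0 ∩ Y ⁻¹' B ∩ G = (Y ⁻¹' B0 ∩ G) ∩ Y ⁻¹' B := by
        ext ω; simp only [Set.mem_inter_iff]; tauto
      have e2 : (Y ⁻¹' B0 \ Y ⁻¹' B) ∩ G = (Y ⁻¹' B0 ∩ G) \ Y ⁻¹' B := by
        ext ω; simp only [Set.mem_inter_iff, Set.mem_sdiff]; tauto
      rw [e1, e2, measure_inter_add_sdiff _ (hY hB)]
    have hF1 : q Set.univ * p (B0 ∩ B) ≤ q (B0 ∩ B) * p Set.univ → (B0 ∩ B) ∈ F := by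
      intro h
      refine ⟨hB0.inter hB, ⟨C0 ∩ C, hC0.inter hC, ?_⟩, hp1, h⟩
      filter_upwards [hBC0, hBC] with ω h1 h2
      exact and_congr h1 h2
    have hF2 : q Set.univ * p (B0 \ B) ≤ q (B0 \ B) * p Set.univ → (B0 \ B) ∈ F := by
      intro h
      refine ⟨hB0.diff hB, ⟨C0 \ C, hC0.diff hC, ?_⟩, hp2, h⟩
      filter_upwards [hBC0, hBC] with ω h1 h2
      exact and_congr h1 (not_congr h2)
    rw [hpadd, hqadd] at hqB0
    by_cases hcase : q Set.univ * p (B0 ∩ B) ≤ q (B0 ∩ B) * p Set.univ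
    · have := hmin _ (hF1 hcase) Set.inter_subset_left
      linarith
    · have h3 : q Set.univ * p (B0 \ B) ≤ q (B0 \ B) * p Set.univ := by
        push Not at hcase
        linarith
      have := hmin _ (hF2 h3) Set.sdiff_subset
      linarith

end Pool.Agent.Y448.HM
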